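import Pool.Agent.Y714.KF.Stm

set_option autoImplicit false

/-! MID: failure of the local condition at primes of middle size. -/

namespace Pool.Agent.Y344.KF

open NumberField FractionalIdeal Module Finset MeasureTheory
open scoped nonZeroDivisors
open Pool.Agent.Y714.KF

/-- the tail of the sum of the inverse squares -/
lemma tail {P₀ : ℝ} (h : 1 ≤ P₀) (N : ℕ) (F : Finset ℕ) (hF : ∀ p ∈ F, P₀ < p ∧ p ≤ N) :
    ∑ p ∈ F, ((p : ℝ) ^ 2)⁻¹ ≤ 2 / P₀ := by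
  have h0 : (0 : ℝ) ≤ P₀ := by linarith
  set m := ⌊P₀⌋₊ with hm
  have hm1 : 1 ≤ m := Nat.one_le_floor_iff P₀ |>.2 h
  have hm2 : P₀ < m + 1 := Nat.lt_floor_add_one P₀
  have hm3 : (m : ℝ) ≤ P₀ := Nat.floor_le h0
  have hm1' : (1 : ℝ) ≤ m := by exact_mod_cast hm1
  have hsub : F ⊆ Ioc m (max m N) := by
    intro p hp
    obtain ⟨h1, h2⟩ := hF p hp
    rw [mem_Ioc]
    refine ⟨?_, le_trans h2 (le_max_right _ _)⟩
    have : (m : ℝ) < p := by linarith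
    exact_mod_cast this
  have h1 : ∑ p ∈ F, ((p : ℝ) ^ 2)⁻¹ ≤ ∑ p ∈ Ioc m (max m N), ((p : ℝ) ^ 2)⁻¹ :=
    sum_le_sum_of_subset_of_nonneg hsub fun _ _ _ => by positivity
  have h2 : ∑ p ∈ Ioc m (max m N), ((p : ℝ) ^ 2)⁻¹ ≤ (m : ℝ)⁻¹ - ((max m N : ℕ) : ℝ)⁻¹ :=
    sum_Ioc_inv_sq_le_sub (by omega) (le_max_left _ _)
  have h3 : 0 ≤ ((max m N : ℕ) : ℝ)⁻¹ := by positivity
  have h4 : (m : ℝ)⁻¹ ≤ 2 / P₀ := by
    rw [inv_eq_one_div, div_le_div_iff₀ (by linarith) (by linarith)]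
    linarith
  linarith

variable {K : Type} [Field K] [NumberField K]

theorem mid (h1 : S_LR K) (h2 : S_BOX) : S_MID K := by
  intro hodd h5 κ I δ hδ
  obtain ⟨b, hb⟩ := exists_basis I
  obtain ⟨C1, hC1, hrb⟩ := exists_rb_bound hodd κ
  obtain ⟨c, C2, hc, hC2, hbf⟩ := exists_bf_bound b
  obtain ⟨C4, hC4, hT⟩ := h1 hodd h5 I b hb
  obtain ⟨R, hRdef⟩ : ∃ R : ℝ, R = C1 / (c * δ ^ 2) + 1 := ⟨_, rfl⟩
  have hR0 : 0 < C1 / (c * δ ^ 2) := by positivity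
  have hR : 0 < R := by rw [hRdef]; linarith
  have hR2 : C1 / (c * δ ^ 2) ≤ R ^ 2 := by rw [hRdef]; nlinarith
  obtain ⟨C3, hC3, hbox⟩ := h2 (Fin (finrank ℚ K) ⊕ Fin (finrank ℚ K)) R hR
  have hn2 : 2 ≤ finrank ℚ K := by omega
  choose T hT1 hT2 using hT
  refine ⟨2 * C3 * C4, by positivity, fun P₀ Y hP₀ hY => ?_⟩
  have hY0 : 0 < Y := by linarith
  classical
  -- the set of the coordinate vectors
  obtain ⟨Z, hZ⟩ : ∃ Z : ℕ → Set (Fin (finrank ℚ K) ⊕ Fin (finrank ℚ K) → ℤ), ∀ p : ℕ, Z p =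
      {z | ‖z‖ ≤ R * Y ∧ ∃ hp : p.Prime, (fun i => (z i : ZMod p)) ∈ (T p hp)ᶜ} := ⟨_, fun _ => rfl⟩
  obtain ⟨F, hF⟩ : ∃ F : Finset ℕ, F = (range (⌊Y⌋₊ + 1)).filter
      (fun p : ℕ => p.Prime ∧ P₀ < (p : ℝ)) := ⟨_, rfl⟩
  have hZp : ∀ p ∈ F, (Z p).Finite ∧ ((Z p).ncard : ℝ) ≤ C3 * C4 * Y ^ (2 * finrank ℚ K) *
      ((p : ℝ) ^ 2)⁻¹ := by
    intro p hp
    rw [hF, mem_filter, mem_range] at hp
    obtain ⟨hp1, hpp, hp2⟩ := hp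
    have hpY : (p : ℝ) ≤ Y := by
      have : p ≤ ⌊Y⌋₊ := by omega
      exact (Nat.le_floor_iff hY0.le).1 this
    have heq : Z p = {z | ‖z‖ ≤ R * Y ∧ (fun i => (z i : ZMod p)) ∈ (T p hpp)ᶜ} := by
      rw [hZ]
      ext z
      constructor
      · rintro ⟨h, _, h'⟩
        exact ⟨h, h'⟩
      · rintro ⟨h, h'⟩
        exact ⟨h, hpp, h'⟩
    obtain ⟨hfin, hcard⟩ := hbox p hpp.one_lt.le Y hpY (T p hpp)ᶜ
    rw [heq]
    refine ⟨hfin, hcard.trans ?_⟩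
    have hp0 : (0 : ℝ) < p := by exact_mod_cast hpp.pos
    have hcard2 : Fintype.card (Fin (finrank ℚ K) ⊕ Fin (finrank ℚ K)) = 2 * finrank ℚ K := by
      rw [Fintype.card_sum, Fintype.card_fin]; ring
    rw [hcard2]
    have hTc := hT2 p hpp
    have e : (p : ℝ) ^ (2 * finrank ℚ K) = (p : ℝ) ^ (2 * finrank ℚ K - 2) * (p : ℝ) ^ 2 := by
      rw [← pow_add]; congr 1; omega
    calc C3 * ((T p hpp)ᶜ.ncard : ℝ) * (Y / p) ^ (2 * finrank ℚ K) ≤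
          C3 * (C4 * (p : ℝ) ^ (2 * finrank ℚ K - 2)) * (Y / p) ^ (2 * finrank ℚ K) := by gcongr
      _ = _ := by
          rw [div_pow, e]
          field_simp
  -- the covering
  have hcov : {M ∈ SL κ (I : FI K) (Y ^ (2 * finrank ℚ K)) |
      (∀ x ∈ M, x ≠ 0 → (δ * Y) ^ 2 < qf x) ∧
      ∃ p : ℕ, p.Prime ∧ P₀ < p ∧ (p : ℝ) ≤ Y ∧ ¬ Loc p I M} ⊆
      ⋃ p ∈ F, (fun z => Lt (pr b z)) '' Z p := by
    rintro M ⟨⟨P, rfl, hctP, hNdP, hNzP, hpmP⟩, hshort, p, hp, hpP, hpY, hLoc⟩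
    obtain ⟨Q, hLQ, hRBQ, hNdQ⟩ := exists_rb hNdP hn2
    have hIndQ := hNdQ.ind hn2
    obtain ⟨-, hpmQ, hccQ, -⟩ := Lt_inv hodd hn2 hNdP hIndQ hLQ.symm
    have hctQ : ct Q ≤ I := by rw [ct_congr hLQ]; exact hctP
    obtain ⟨hQ1, hQ2⟩ := ct_le.1 hctQ
    obtain ⟨z1, hz1⟩ := (hb _).1 hQ1
    obtain ⟨z2, hz2⟩ := (hb _).1 hQ2
    have hprz : pr b (Sum.elim z1 z2) = Q := by
      unfold pr
      simp only [Sum.elim_inl, Sum.elim_inr]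
      rw [← hz1, ← hz2]
    have hpmpos : 0 < pm (vec Q) := hNdQ.pm_pos hn2
    have hb4 := hrb Q hpmpos hRBQ (fun j => by
      rw [hccQ]
      exact ⟨(hNzP j).1, (hNzP j).2.le⟩) Y hY0 (by rw [hpmQ]; exact hpmP)
    have hsh := hshort Q.1 (by rw [← hLQ]; exact fst_mem_Lt Q) hIndQ.fst
    have hq2 : qf Q.2 ≤ C1 / δ ^ 2 * Y ^ 2 := by
      have h3 : (δ * Y) ^ 2 * qf Q.2 ≤ C1 * Y ^ 4 :=
        (mul_le_mul_of_nonneg_right hsh.le (qf_nonneg _)).trans hb4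
      rw [div_mul_eq_mul_div, le_div_iff₀ (by positivity)]
      have h4 : (δ ^ 2 * qf Q.2) * Y ^ 2 ≤ (C1 * Y ^ 2) * Y ^ 2 := by nlinarith
      have h5 := le_of_mul_le_mul_right h4 (by positivity)
      linarith
    have hq1 : qf Q.1 ≤ C1 / δ ^ 2 * Y ^ 2 := hRBQ.1.trans hq2
    have hbd : ∀ z : Fin (finrank ℚ K) → ℤ, qf (el b z) ≤ C1 / δ ^ 2 * Y ^ 2 →
        ∀ i, ‖z i‖ ≤ R * Y := by
      intro z hz i
      rw [qf_el] at hz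
      have h3 := (hbf (fun i => (z i : ℝ))).1
      have h4 : ‖(fun i => (z i : ℝ))‖ ^ 2 ≤ (R * Y) ^ 2 := by
        have h6 : c * ‖(fun i => (z i : ℝ))‖ ^ 2 ≤ C1 / δ ^ 2 * Y ^ 2 := h3.trans hz
        have h7 : ‖(fun i => (z i : ℝ))‖ ^ 2 ≤ C1 / (c * δ ^ 2) * Y ^ 2 := by
          have : C1 / (c * δ ^ 2) * Y ^ 2 = (C1 / δ ^ 2 * Y ^ 2) / c := by field_simp
          rw [this, le_div_iff₀ hc]
          linarith
        rw [mul_pow]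
        exact h7.trans (mul_le_mul_of_nonneg_right hR2 (by positivity))
      have h8 : ‖(fun i => (z i : ℝ))‖ ≤ R * Y :=
        (pow_le_pow_iff_left₀ (norm_nonneg _) (by positivity) two_ne_zero).1 h4
      have h9 := norm_le_pi_norm (fun i => (z i : ℝ)) i
      have h10 : ‖z i‖ = ‖(z i : ℝ)‖ := by
        rw [Int.norm_eq_abs, Real.norm_eq_abs]
      rw [h10]
      exact h9.trans h8
    have hzn : ‖(Sum.elim z1 z2 : Fin (finrank ℚ K) ⊕ Fin (finrank ℚ K) → ℤ)‖ ≤ R * Y := by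
      rw [pi_norm_le_iff_of_nonneg (by positivity)]
      rintro (i | i)
      · exact hbd z1 (by rw [← hz1]; exact hq1) i
      · exact hbd z2 (by rw [← hz2]; exact hq2) i
    have hpF : p ∈ F := by
      rw [hF, mem_filter, mem_range]
      refine ⟨?_, hp, hpP⟩
      have := (Nat.le_floor_iff hY0.le).2 hpY
      omega
    rw [Set.mem_iUnion₂]
    refine ⟨p, hpF, Sum.elim z1 z2, ?_, ?_⟩
    · rw [hZ]
      refine ⟨hzn, hp, ?_⟩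
      intro hmem
      apply hLoc
      have h3 := (hT1 p hp (Sum.elim z1 z2) (by rw [hprz]; exact hIndQ)).2 hmem
      rw [hprz, hLQ] at h3
      exact h3
    · simp only
      rw [hprz, hLQ]
  have hfinU : (⋃ p ∈ F, (fun z => Lt (pr b z)) '' Z p).Finite :=
    Set.Finite.biUnion F.finite_toSet fun p hp => ((hZp p hp).1).image _
  have hle : ({M ∈ SL κ (I : FI K) (Y ^ (2 * finrank ℚ K)) |
      (∀ x ∈ M, x ≠ 0 → (δ * Y) ^ 2 < qf x) ∧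
      ∃ p : ℕ, p.Prime ∧ P₀ < p ∧ (p : ℝ) ≤ Y ∧ ¬ Loc p I M}.ncard : ℝ) ≤
      ∑ p ∈ F, ((Z p).ncard : ℝ) := by
    have h3 := Set.ncard_le_ncard hcov hfinU
    have h4 := F.set_ncard_biUnion_le (fun p => (fun z => Lt (pr b z)) '' Z p)
    have h5 : ∑ p ∈ F, ((fun z => Lt (pr b z)) '' Z p).ncard ≤ ∑ p ∈ F, (Z p).ncard :=
      sum_le_sum fun p hp => Set.ncard_image_le (hZp p hp).1
    have h6 := h3.trans (h4.trans h5)
    exact_mod_cast h6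
  refine hle.trans ?_
  have htail := tail hP₀ (⌊Y⌋₊) F (fun p hp => by
    rw [hF, mem_filter, mem_range] at hp
    exact ⟨hp.2.2, by omega⟩)
  calc ∑ p ∈ F, ((Z p).ncard : ℝ) ≤
        ∑ p ∈ F, C3 * C4 * Y ^ (2 * finrank ℚ K) * ((p : ℝ) ^ 2)⁻¹ :=
        sum_le_sum fun p hp => (hZp p hp).2
    _ = C3 * C4 * Y ^ (2 * finrank ℚ K) * ∑ p ∈ F, ((p : ℝ) ^ 2)⁻¹ := by rw [mul_sum]
    _ ≤ C3 * C4 * Y ^ (2 * finrank ℚ K) * (2 / P₀) := by gcongr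
    _ = _ := by ring

end Pool.Agent.Y344.KF
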